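import Pool.Agent.Run7.h5.FD.Fin

/-!
# A finite-dimensional connected low₂-presented (hence low₄-presented) compact space without a
computable presentation
-/

set_option autoImplicit false

namespace Pool.Agent.Results.MP_f0c992_lc.FiniteDimConnected

open Pool.Agent.Helper227 (TLe chi jump)
open Run7.h5.FD (CovDimLE X1)

/-- The empty oracle. -/
def emptyOracle : ℕ → Bool := fun _ => false

/-- The oracle `D` has low`ₙ` Turing degree: the `n`-th Turing jump of `D` is Turing equivalent to
the `n`-th Turing jump of the empty set. -/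
def Low (n : ℕ) (D : ℕ → Bool) : Prop :=
  TLe (jump^[n] D) (jump^[n] emptyOracle) ∧ TLe (jump^[n] emptyOracle) (jump^[n] D)

/-- The nonnegative rational number with code `u`. -/
noncomputable def ratVal (u : ℕ) : ℝ := (u.unpair.1 : ℝ) / ((u.unpair.2 : ℝ) + 1)

/-- The topological space `X` has a presentation (a complete metric compatible with the topology and
a dense sequence `x`) such that for some function `f` with the property `Comp` the rational number
with code `f (i, j, n)` is within `2 ^ (-n)` of the distance of `x i` and `x j`. -/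
def PresentedBy (Comp : (ℕ → ℕ) → Prop) (X : Type) [t : TopologicalSpace X] : Prop :=
  ∃ m : MetricSpace X, m.toPseudoMetricSpace.toUniformSpace.toTopologicalSpace = t ∧
    @CompleteSpace X m.toPseudoMetricSpace.toUniformSpace ∧
    ∃ x : ℕ → X, DenseRange x ∧ ∃ f : ℕ → ℕ, Comp f ∧
      ∀ i j n : ℕ, |ratVal (f (Nat.pair i (Nat.pair j n))) - m.dist (x i) (x j)| ≤ (1 / 2 : ℝ) ^ n

/-- The total function `f` is computable with the oracle `D`. -/
def CompIn (D : ℕ → Bool) (f : ℕ → ℕ) : Prop :=
  TuringReducible (fun n => Part.some (f n)) (chi D)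

theorem low_of_le {n : ℕ} {D : ℕ → Bool} (h : TLe (jump^[n] D) (jump^[n] emptyOracle)) :
    Low n D := by
  refine ⟨h, ?_⟩
  clear h
  induction n with
  | zero =>
    have h1 : Partrec (chi emptyOracle) := (Computable.const 0).partrec
    exact h1.turingReducible
  | succ n ih =>
    rw [Function.iterate_succ_apply', Function.iterate_succ_apply']
    exact ih.jump

/-- Rounding of the rational number with code `c` to a multiple of `2 ^ (-k)`. -/
def rnd (c k : ℕ) : ℕ := (2 * c.unpair.1 * 2 ^ k + (c.unpair.2 + 1)) / (2 * (c.unpair.2 + 1))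

theorem primrec_rnd : Primrec₂ rnd := by
  have hp : Primrec fun n : ℕ => 2 ^ n := by
    have := Primrec.nat_rec₁ (f := fun _ IH : ℕ => 2 * IH) 1
      (Primrec.nat_mul.comp (Primrec.const 2) Primrec.snd).to₂
    refine this.of_eq fun n => ?_
    induction n with
    | zero => rfl
    | succ n ih => rw [pow_succ, Nat.mul_comm, ← ih]
  have h1 : Primrec fun x : ℕ × ℕ => x.1.unpair.1 :=
    Primrec.fst.comp (Primrec.unpair.comp Primrec.fst)
  have h2 : Primrec fun x : ℕ × ℕ => x.1.unpair.2 + 1 :=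
    Primrec.succ.comp (Primrec.snd.comp (Primrec.unpair.comp Primrec.fst))
  have h3 : Primrec fun x : ℕ × ℕ => 2 ^ x.2 := hp.comp Primrec.snd
  exact Primrec.nat_div.comp
    (Primrec.nat_add.comp (Primrec.nat_mul.comp (Primrec.nat_mul.comp (Primrec.const 2) h1) h3) h2)
    (Primrec.nat_mul.comp (Primrec.const 2) h2)

theorem rnd_near (c k : ℕ) : |(rnd c k : ℝ) / 2 ^ k - ratVal c| ≤ (1 / 2 : ℝ) ^ (k + 1) := by
  have hq : (0 : ℝ) < (c.unpair.2 : ℝ) + 1 := by positivity
  have h2 : (0 : ℝ) < 2 ^ k := by positivity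
  have key : |(rnd c k : ℝ) - ratVal c * 2 ^ k| ≤ 1 / 2 := by
    have h3 : rnd c k * (2 * (c.unpair.2 + 1)) ≤ 2 * c.unpair.1 * 2 ^ k + (c.unpair.2 + 1) :=
      Nat.div_mul_le_self _ _
    have h4 : 2 * c.unpair.1 * 2 ^ k + (c.unpair.2 + 1) <
        (rnd c k + 1) * (2 * (c.unpair.2 + 1)) := by
      have := Nat.lt_mul_div_succ (2 * c.unpair.1 * 2 ^ k + (c.unpair.2 + 1))
        (show 0 < 2 * (c.unpair.2 + 1) by positivity)
      rw [Nat.mul_comm (rnd c k + 1)]
      exact this
    have h5 : (rnd c k : ℝ) * (2 * ((c.unpair.2 : ℝ) + 1)) ≤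
        2 * (c.unpair.1 : ℝ) * 2 ^ k + ((c.unpair.2 : ℝ) + 1) := by exact_mod_cast h3
    have h6 : 2 * (c.unpair.1 : ℝ) * 2 ^ k + ((c.unpair.2 : ℝ) + 1) <
        ((rnd c k : ℝ) + 1) * (2 * ((c.unpair.2 : ℝ) + 1)) := by exact_mod_cast h4
    have h7 : ratVal c * ((c.unpair.2 : ℝ) + 1) = (c.unpair.1 : ℝ) := by
      unfold ratVal
      field_simp
    rw [← h7] at h5 h6
    rw [abs_le]
    constructor
    · by_contra hcon
      push Not at hcon
      nlinarith
    · by_contra hcon
      push Not at hcon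
      nlinarith
  have h8 : (rnd c k : ℝ) / 2 ^ k - ratVal c = ((rnd c k : ℝ) - ratVal c * 2 ^ k) / 2 ^ k := by
    field_simp
  rw [h8, abs_div, abs_of_pos h2, div_le_iff₀ h2, pow_succ]
  have h9 : (1 / 2 : ℝ) ^ k * (1 / 2) * 2 ^ k = 1 / 2 := by
    rw [one_div_pow]
    field_simp
  rw [h9]
  exact key

/-- There are an oracle `D` of low₂ degree (hence of low₄ degree) and a compact connected
`D`-presented Polish space of finite covering dimension which is not homeomorphic to any computably
presented Polish space. -/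
theorem result : ∃ D : ℕ → Bool, Low 2 D ∧ Low 4 D ∧
    ∃ (X : Type) (_ : TopologicalSpace X), CompactSpace X ∧ ConnectedSpace X ∧
      (∃ m : ℕ, CovDimLE X m) ∧ PresentedBy (CompIn D) X ∧
      ∀ (Y : Type) [TopologicalSpace Y], PresentedBy (fun f => Computable f) Y →
        IsEmpty (X ≃ₜ Y) := by
  obtain ⟨D, hD, S, x, hx, ⟨f, hf, hfd⟩, hno⟩ := Run7.h5.FD.main
  refine ⟨D, low_of_le hD, low_of_le hD.jump.jump, X1 S, inferInstance,
    isCompact_iff_compactSpace.1 (Run7.h5.FD.isCompact_X1 S),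
    Subtype.connectedSpace (Run7.h5.FD.isConnected_X1 S), ⟨63, Run7.h5.FD.covDim_X1 S⟩, ?_, ?_⟩
  · have hcX : CompactSpace (X1 S) :=
      isCompact_iff_compactSpace.1 (Run7.h5.FD.isCompact_X1 S)
    refine ⟨inferInstance, rfl, inferInstance, x, hx, f, hf, fun i j n => ?_⟩
    have h := hfd i j n
    rw [one_div_pow]
    exact h
  · rintro Y _ ⟨m, rfl, hm, y, hy, g, hg, hgd⟩
    have hA : Primrec fun u : ℕ => Nat.pair u.unpair.1 (Nat.pair u.unpair.2.unpair.1
        (u.unpair.2.unpair.2 + 1)) := by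
      have p2 : Primrec fun u : ℕ => u.unpair.2.unpair := Primrec.unpair.comp
        (Primrec.snd.comp Primrec.unpair)
      exact Primrec₂.natPair.comp (Primrec.fst.comp Primrec.unpair)
        (Primrec₂.natPair.comp (Primrec.fst.comp p2) (Primrec.succ.comp (Primrec.snd.comp p2)))
    have hk : Primrec fun u : ℕ => u.unpair.2.unpair.2 :=
      Primrec.snd.comp (Primrec.unpair.comp (Primrec.snd.comp Primrec.unpair))
    refine @hno Y m hm y hy ⟨fun u => rnd (g (Nat.pair u.unpair.1 (Nat.pair u.unpair.2.unpair.1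
        (u.unpair.2.unpair.2 + 1)))) u.unpair.2.unpair.2,
      primrec_rnd.to_comp.comp (hg.comp hA.to_comp) hk.to_comp, fun i j k => ?_⟩
    have h := hgd i j (k + 1)
    have h' := rnd_near (g (Nat.pair i (Nat.pair j (k + 1)))) k
    simp only [Nat.unpair_pair]
    calc |(rnd (g (Nat.pair i (Nat.pair j (k + 1)))) k : ℝ) / 2 ^ k - dist (y i) (y j)|
        ≤ |(rnd (g (Nat.pair i (Nat.pair j (k + 1)))) k : ℝ) / 2 ^ k -
            ratVal (g (Nat.pair i (Nat.pair j (k + 1))))| +
          |ratVal (g (Nat.pair i (Nat.pair j (k + 1)))) - dist (y i) (y j)| := abs_sub_le _ _ _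
      _ ≤ (1 / 2 : ℝ) ^ (k + 1) + (1 / 2 : ℝ) ^ (k + 1) := add_le_add h' h
      _ = 1 / 2 ^ k := by
        rw [one_div_pow, pow_succ]
        field_simp
        norm_num

end Pool.Agent.Results.MP_f0c992_lc.FiniteDimConnected
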